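import Mathlib

/-!
# Seymour's trace question for four matrices with `2 n (n - 3 r) ≤ r ^ 2`
-/

set_option autoImplicit false
set_option linter.unusedSectionVars false

namespace Pool.Agent.Results.MP_323cd4_co.FourMatrices

open Finset

section core

variable {V : Type} [Fintype V] [DecidableEq V]

/-- in-neighbours -/
def inn (A : V → Finset V) (x : V) : Finset V := univ.filter (fun z => x ∈ A z)

theorem mem_inn {A : V → Finset V} {x z : V} : z ∈ inn A x ↔ x ∈ A z := by simp [inn]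

/-- an oriented graph on `X` has at most `|X|²/2` arcs -/
theorem tour (D : V → Finset V) (h : ∀ u v, v ∈ D u → u ∉ D v) (X : Finset V) :
    2 * ∑ z ∈ X, (D z ∩ X).card ≤ X.card * X.card := by
  have h1 : ∀ z, (D z ∩ X).card = ∑ u ∈ X, if u ∈ D z then 1 else 0 := by
    intro z
    rw [← card_filter, filter_mem_eq_inter, inter_comm]
  have h2 : ∑ z ∈ X, (D z ∩ X).card = ∑ z ∈ X, ∑ u ∈ X, if u ∈ D z then 1 else 0 :=
    sum_congr rfl fun z _ => h1 z
  have h3 : ∑ z ∈ X, (D z ∩ X).card = ∑ z ∈ X, ∑ u ∈ X, if z ∈ D u then 1 else 0 := by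
    rw [h2, sum_comm]
  calc 2 * ∑ z ∈ X, (D z ∩ X).card
      = ∑ z ∈ X, (D z ∩ X).card + ∑ z ∈ X, (D z ∩ X).card := by ring
    _ = ∑ z ∈ X, ∑ u ∈ X, ((if u ∈ D z then 1 else 0) + if z ∈ D u then 1 else 0) := by
        nth_rewrite 1 [h2]
        rw [h3, ← sum_add_distrib]
        exact sum_congr rfl fun z _ => sum_add_distrib.symm
    _ ≤ ∑ z ∈ X, ∑ u ∈ X, 1 := by
        refine sum_le_sum fun z _ => sum_le_sum fun u _ => ?_
        by_cases hu : u ∈ D z
        · have := h z u hu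
          simp [hu, this]
        · simp only [hu, if_false, zero_add]
          split_ifs <;> simp
    _ = X.card * X.card := by simp

theorem cross (A C : V → Finset V) (h : ∀ u v, v ∈ C u → u ∉ A v) (P Q : Finset V) :
    ∑ z ∈ Q, (A z ∩ P).card ≤ ∑ u ∈ P, (Q \ C u).card := by
  have h1 : ∀ z, (A z ∩ P).card = ∑ u ∈ P, if u ∈ A z then 1 else 0 := by
    intro z
    rw [← card_filter, filter_mem_eq_inter, inter_comm]
  have h2 : ∀ u, (Q \ C u).card = ∑ z ∈ Q, if z ∉ C u then 1 else 0 := by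
    intro u
    rw [← card_filter, sdiff_eq_filter]
  rw [sum_congr rfl fun z _ => h1 z, sum_congr rfl fun u _ => h2 u, sum_comm]
  refine sum_le_sum fun u _ => sum_le_sum fun z _ => ?_
  by_cases hu : u ∈ A z
  · have : z ∉ C u := fun hz => h u z hz hu
    simp [hu, this]
  · simp [hu]

/-- the local data -/
structure Loc (B C D W W' : V → Finset V) (r : ℕ) : Prop where
  cB : ∀ v, (B v).card = r
  cC : ∀ v, (C v).card = r
  cD : ∀ v, (D v).card = r
  CC : ∀ u v, v ∈ C u → u ∉ C v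
  DD : ∀ u v, v ∈ D u → u ∉ D v
  CD : ∀ u v, v ∈ C u → u ∉ D v
  s1 : ∀ x y, y ∈ B x → C y ⊆ B x ∪ W x
  d1 : ∀ x, Disjoint (B x) (W x)
  s2 : ∀ y z, z ∈ C y → D z ⊆ C y ∪ W' y

variable {B C D W W' : V → Finset V} {r : ℕ}

theorem split (h : Loc B C D W W' r) {x y : V} (hy : y ∈ B x) :
    (C y ∩ W x).card + (C y ∩ B x).card = r := by
  have h1 : C y \ B x = C y ∩ W x := by
    ext z
    rw [mem_sdiff, mem_inter]
    constructor
    · rintro ⟨h2, h3⟩
      refine ⟨h2, ?_⟩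
      rcases mem_union.1 (h.s1 x y hy h2) with h4 | h4
      · exact absurd h4 h3
      · exact h4
    · rintro ⟨h2, h3⟩
      exact ⟨h2, fun h4 => disjoint_left.1 (h.d1 x) h4 h3⟩
  rw [← h1, card_sdiff_add_card_inter, h.cC]

theorem deep (h : Loc B C D W W' r) {y z : V} (hz : z ∈ C y) :
    r ≤ (D z ∩ C y).card + (W' y).card := by
  have h2 : D z \ C y ⊆ W' y := by
    intro w hw
    rw [mem_sdiff] at hw
    rcases mem_union.1 (h.s2 y z hz hw.1) with h4 | h4
    · exact absurd h4 hw.2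
    · exact h4
  have h3 := card_le_card h2
  have h5 := card_sdiff_add_card_inter (D z) (C y)
  rw [h.cD] at h5
  omega

/-- the inequality for one arc `x → y` of `B` -/
theorem arc (h : Loc B C D W W' r) {x y : V} (hy : y ∈ B x) :
    2 * ((C y ∩ W x).card * r) ≤
      2 * ((C y ∩ W x).card * (W' y).card) +
        (C y ∩ W x).card * (C y ∩ W x).card +
        2 * ∑ u ∈ C y ∩ B x, (W x \ C u).card := by
  obtain ⟨Q, hQ⟩ : ∃ Q, Q = C y ∩ W x := ⟨_, rfl⟩
  obtain ⟨P, hP⟩ : ∃ P, P = C y ∩ B x := ⟨_, rfl⟩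
  rw [← hQ, ← hP]
  have hdis : Disjoint Q P := by
    rw [disjoint_left, hQ, hP]
    intro z hz hz2
    exact disjoint_left.1 (h.d1 x) (mem_inter.1 hz2).2 (mem_inter.1 hz).2
  have hun : C y = Q ∪ P := by
    symm
    apply eq_of_subset_of_card_le
    · rw [hQ, hP]
      exact union_subset inter_subset_left inter_subset_left
    · rw [card_union_of_disjoint hdis, hQ, hP, split h hy, h.cC]
  have h1 : ∑ z ∈ Q, r ≤ ∑ z ∈ Q, ((D z ∩ Q).card + (D z ∩ P).card + (W' y).card) := by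
    refine sum_le_sum fun z hz => ?_
    have hz2 : z ∈ C y := by
      rw [hQ] at hz
      exact (mem_inter.1 hz).1
    have h2 := deep h hz2
    have h3 : (D z ∩ C y).card ≤ (D z ∩ Q).card + (D z ∩ P).card := by
      rw [hun, inter_union_distrib_left]
      exact card_union_le _ _
    omega
  rw [sum_const, smul_eq_mul, sum_add_distrib, sum_add_distrib, sum_const, smul_eq_mul] at h1
  have h2 := tour D h.DD Q
  have h3 := cross D C h.CD P Q
  have h4 : ∑ u ∈ P, (Q \ C u).card ≤ ∑ u ∈ P, (W x \ C u).card := by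
    refine sum_le_sum fun u _ => card_le_card (sdiff_subset_sdiff ?_ subset_rfl)
    rw [hQ]
    exact inter_subset_right
  omega

/-- exchange of the sums -/
theorem exch (h : Loc B C D W W' r) (x : V) (f : V → ℕ) :
    ∑ y ∈ B x, ∑ u ∈ C y ∩ B x, f u ≤ ∑ u ∈ B x, f u * (C u ∩ W x).card := by
  have h1 : ∀ y, ∑ u ∈ C y ∩ B x, f u = ∑ u ∈ B x, if u ∈ C y then f u else 0 := by
    intro y
    rw [← sum_filter, filter_mem_eq_inter, inter_comm]
  rw [sum_congr rfl fun y _ => h1 y, sum_comm]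
  refine sum_le_sum fun u hu => ?_
  rw [← sum_filter, sum_const, smul_eq_mul, mul_comm]
  refine Nat.mul_le_mul_left _ ?_
  have h2 : Disjoint ((B x).filter (fun y => u ∈ C y)) (C u ∩ B x) := by
    rw [disjoint_left]
    intro y hy hy2
    rw [mem_filter] at hy
    rw [mem_inter] at hy2
    exact h.CC y u hy.2 hy2.1
  have h3 : ((B x).filter (fun y => u ∈ C y) ∪ (C u ∩ B x)).card ≤ (B x).card :=
    card_le_card (union_subset (filter_subset _ _) inter_subset_right)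
  rw [card_union_of_disjoint h2, h.cB] at h3
  have h4 := split h hu
  omega

theorem sumq (h : Loc B C D W W' r) (x : V) :
    r * r ≤ 2 * ∑ y ∈ B x, (C y ∩ W x).card := by
  have h1 : ∑ y ∈ B x, ((C y ∩ W x).card + (C y ∩ B x).card) = r * r := by
    rw [sum_congr rfl fun y hy => split h hy, sum_const, h.cB, smul_eq_mul]
  rw [sum_add_distrib] at h1
  have h2 := tour C h.CC (B x)
  rw [h.cB] at h2
  omega

theorem gnn (h : Loc B C D W W' r) (hr : 1 ≤ r) (y : V) : r ≤ 2 * (W' y).card := by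
  have h1 : ∑ z ∈ C y, r ≤ ∑ z ∈ C y, ((D z ∩ C y).card + (W' y).card) :=
    sum_le_sum fun z hz => deep h hz
  rw [sum_const, smul_eq_mul, sum_add_distrib, sum_const, smul_eq_mul, h.cC] at h1
  have h2 := tour D h.DD (C y)
  rw [h.cC] at h2
  have h3 : r * r ≤ r * (2 * (W' y).card) := by nlinarith
  exact Nat.le_of_mul_le_mul_left h3 (by omega)

theorem hnn (h : Loc B C D W W' r) (hr : 1 ≤ r) (x : V) : r ≤ 2 * (W x).card := by
  have h1 := sumq h x
  have h2 : ∑ y ∈ B x, (C y ∩ W x).card ≤ r * (W x).card := by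
    refine (sum_le_sum fun y _ => card_le_card inter_subset_right).trans ?_
    rw [sum_const, h.cB, smul_eq_mul]
  have h3 : r * r ≤ r * (2 * (W x).card) := by nlinarith
  exact Nat.le_of_mul_le_mul_left h3 (by omega)

/-- the inequality for one vertex -/
theorem perx (h : Loc B C D W W' r) (hr : 1 ≤ r) (x : V) :
    (r : ℝ) * ((r : ℝ) / 4 - 3 / 2 * ((W x).card - (r : ℝ) / 2)) ≤
      ∑ y ∈ B x, (((W' y).card : ℝ) - (r : ℝ) / 2) := by
  obtain ⟨R, hR⟩ : ∃ R : ℝ, R = (r : ℝ) := ⟨_, rfl⟩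
  obtain ⟨w, hw⟩ : ∃ w : ℝ, w = ((W x).card : ℝ) := ⟨_, rfl⟩
  obtain ⟨q, hq⟩ : ∃ q : V → ℝ, q = fun y => ((C y ∩ W x).card : ℝ) := ⟨_, rfl⟩
  obtain ⟨g, hg'⟩ : ∃ g : V → ℝ, g = fun y => ((W' y).card : ℝ) - (r : ℝ) / 2 := ⟨_, rfl⟩
  have hR1 : 1 ≤ R := by rw [hR]; exact_mod_cast hr
  have hR0 : 0 < R := by linarith
  have hq0 : ∀ y, 0 ≤ q y := fun y => by rw [hq]; exact Nat.cast_nonneg _
  have hqw : ∀ y, q y ≤ w := fun y => by
    rw [hq, hw]
    show ((C y ∩ W x).card : ℝ) ≤ ((W x).card : ℝ)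
    exact_mod_cast card_le_card inter_subset_right
  have hg : ∀ y, 0 ≤ g y := by
    intro y
    have h2 : (r : ℝ) ≤ 2 * ((W' y).card : ℝ) := by exact_mod_cast gnn h hr y
    rw [hg']
    simp only
    linarith
  have hh : 0 ≤ w - R / 2 := by
    have h2 : (r : ℝ) ≤ 2 * ((W x).card : ℝ) := by exact_mod_cast hnn h hr x
    rw [hw, hR]
    linarith
  obtain ⟨S, hS⟩ : ∃ S : ℝ, S = ∑ y ∈ B x, q y := ⟨_, rfl⟩
  obtain ⟨S2, hS2⟩ : ∃ S2 : ℝ, S2 = ∑ y ∈ B x, q y ^ 2 := ⟨_, rfl⟩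
  obtain ⟨G, hG⟩ : ∃ G : ℝ, G = ∑ y ∈ B x, g y := ⟨_, rfl⟩
  obtain ⟨M, hM⟩ : ∃ M : ℝ, M = ∑ y ∈ B x, q y * g y := ⟨_, rfl⟩
  have h1 : ∑ y ∈ B x, 2 * (q y * R) ≤
      ∑ y ∈ B x, (2 * (q y * (g y + R / 2)) + q y ^ 2) + 2 * ∑ u ∈ B x, (w - q u) * q u := by
    have e1 : ∑ y ∈ B x, 2 * (q y * R) ≤
        ∑ y ∈ B x, ((2 * (q y * (g y + R / 2)) + q y ^ 2) +
          2 * ((∑ u ∈ C y ∩ B x, (W x \ C u).card : ℕ) : ℝ)) := by
      refine sum_le_sum fun y hy => ?_
      have e2 := arc h hy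
      have e3 : (2 * (((C y ∩ W x).card : ℝ) * r) : ℝ) ≤
        2 * (((C y ∩ W x).card : ℝ) * ((W' y).card : ℝ)) +
          (C y ∩ W x).card * (C y ∩ W x).card +
          2 * ((∑ u ∈ C y ∩ B x, (W x \ C u).card : ℕ) : ℝ) := by exact_mod_cast e2
      rw [hq, hR, hg']
      simp only
      rw [pow_two, sub_add_cancel]
      exact e3
    have e4 : ((∑ y ∈ B x, ∑ u ∈ C y ∩ B x, (W x \ C u).card : ℕ) : ℝ) ≤
        ∑ u ∈ B x, (w - q u) * q u := by
      have e5 : ((∑ y ∈ B x, ∑ u ∈ C y ∩ B x, (W x \ C u).card : ℕ) : ℝ) ≤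
          ((∑ u ∈ B x, (W x \ C u).card * (C u ∩ W x).card : ℕ) : ℝ) := by
        exact_mod_cast exch h x _
      refine e5.trans (le_of_eq ?_)
      rw [Nat.cast_sum]
      refine sum_congr rfl fun u _ => ?_
      have e6 := card_sdiff_add_card_inter (W x) (C u)
      rw [inter_comm] at e6
      have e7 : ((W x \ C u).card : ℝ) = w - q u := by
        rw [hw, hq]
        simp only
        rw [← e6]
        push_cast
        ring
      rw [Nat.cast_mul, e7, hq]
    have e8 : ∑ y ∈ B x, ((2 * (q y * (g y + R / 2)) + q y ^ 2) +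
          2 * ((∑ u ∈ C y ∩ B x, (W x \ C u).card : ℕ) : ℝ)) =
        ∑ y ∈ B x, (2 * (q y * (g y + R / 2)) + q y ^ 2) +
          2 * ((∑ y ∈ B x, ∑ u ∈ C y ∩ B x, (W x \ C u).card : ℕ) : ℝ) := by
      rw [sum_add_distrib, Nat.cast_sum, mul_sum]
    rw [e8] at e1
    linarith
  have h2 : S2 ≤ 2 * M + 2 * (w - R / 2) * S := by
    have e1 : ∑ y ∈ B x, 2 * (q y * R) = 2 * R * S := by
      rw [hS, mul_sum]
      exact sum_congr rfl fun y _ => by ring
    have e2 : ∑ y ∈ B x, (2 * (q y * (g y + R / 2)) + q y ^ 2) = 2 * M + R * S + S2 := by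
      rw [hS, hS2, hM, mul_sum, mul_sum, ← sum_add_distrib, ← sum_add_distrib]
      exact sum_congr rfl fun y _ => by ring
    have e3 : ∑ u ∈ B x, (w - q u) * q u = w * S - S2 := by
      rw [hS, hS2, mul_sum, ← sum_sub_distrib]
      exact sum_congr rfl fun y _ => by ring
    rw [e1, e2, e3] at h1
    nlinarith
  have hG0 : 0 ≤ G := by
    rw [hG]
    exact sum_nonneg fun y _ => hg y
  have h3 : M ≤ w * G := by
    rw [hM, hG, mul_sum]
    exact sum_le_sum fun y _ => mul_le_mul_of_nonneg_right (hqw y) (hg y)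
  have h4 : S ^ 2 ≤ R * S2 := by
    have := sq_sum_le_card_mul_sum_sq (s := B x) (f := q)
    rw [h.cB] at this
    rw [hS, hS2, hR]
    exact this
  have h5 : R ^ 2 ≤ 2 * S := by
    have e1 := sumq h x
    have e2 : ((r : ℝ) * r) ≤ 2 * ((∑ y ∈ B x, (C y ∩ W x).card : ℕ) : ℝ) := by
      exact_mod_cast e1
    rw [hR, hS, hq]
    push_cast at e2
    simp only
    rw [pow_two]
    exact e2
  have eG : ∑ y ∈ B x, (((W' y).card : ℝ) - (r : ℝ) / 2) = G := by rw [hG, hg']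
  rw [eG, ← hR, ← hw]
  obtain ⟨H, hH⟩ : ∃ H : ℝ, H = w - R / 2 := ⟨_, rfl⟩
  have hwH : w = H + R / 2 := by linarith
  rw [← hH] at h2 hh ⊢
  rw [hwH] at h3
  have hS0 : 0 < S := by nlinarith
  have h6 : S * R ≤ 2 * S2 := by
    have e1 : R * (S * R) ≤ R * (2 * S2) := by nlinarith
    exact le_of_mul_le_mul_left e1 hR0
  by_cases hc : H ≤ R / 4
  · have e1 : R ^ 2 / 2 * (R / 4 - H) ≤ S * (R / 4 - H) :=
      mul_le_mul_of_nonneg_right (by linarith) (by linarith)
    have e2 : R ^ 2 / 2 * (R / 4 - H) ≤ (H + R / 2) * G := by nlinarith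
    have e3 : (H + R / 2) * (R * (R / 4 - 3 / 2 * H)) ≤ (H + R / 2) * G := by
      have : 0 ≤ R * H ^ 2 := by positivity
      nlinarith
    exact le_of_mul_le_mul_left e3 (by linarith)
  · push Not at hc
    have e1 : R * (R / 4 - 3 / 2 * H) ≤ 0 :=
      mul_nonpos_of_nonneg_of_nonpos hR0.le (by linarith)
    linarith

end core

section four

variable {V : Type} [Fintype V] [DecidableEq V]

/-- four digraphs with out-degrees `r` and only trivial ordered closed walks -/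
structure Sys (B C D E : V → Finset V) (r : ℕ) : Prop where
  cB : ∀ v, (B v).card = r
  cC : ∀ v, (C v).card = r
  cD : ∀ v, (D v).card = r
  cE : ∀ v, (E v).card = r
  lB : ∀ v, v ∉ B v
  lC : ∀ v, v ∉ C v
  lD : ∀ v, v ∉ D v
  lE : ∀ v, v ∉ E v
  BB : ∀ u v, v ∈ B u → u ∉ B v
  CC : ∀ u v, v ∈ C u → u ∉ C v
  DD : ∀ u v, v ∈ D u → u ∉ D v
  EE : ∀ u v, v ∈ E u → u ∉ E v
  U : ∀ i j k l, j ∈ insert i (B i) → k ∈ insert j (C j) → l ∈ insert k (D k) →
    i ∈ insert l (E l) → j = i ∧ k = i ∧ l = i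

variable {B C D E : V → Finset V} {r : ℕ}

theorem Sys.rot (h : Sys B C D E r) : Sys C D E B r :=
  { cB := h.cC, cC := h.cD, cD := h.cE, cE := h.cB
    lB := h.lC, lC := h.lD, lD := h.lE, lE := h.lB
    BB := h.CC, CC := h.DD, DD := h.EE, EE := h.BB
    U := fun i j k l h1 h2 h3 h4 => by
      obtain ⟨e1, e2, e3⟩ := h.U l i j k h4 h1 h2 h3
      exact ⟨e2.trans e1.symm, e3.trans e1.symm, e1.symm⟩ }

/-- the vertices reached by `B` and `C`, without `x` and `B x` -/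
def W (B C : V → Finset V) (x : V) : Finset V :=
  (C x ∪ (B x).biUnion C) \ insert x (B x)

theorem reach {x v : V} (hv : v ∈ insert x (B x) ∪ W B C x) :
    ∃ y, y ∈ insert x (B x) ∧ v ∈ insert y (C y) := by
  rcases mem_union.1 hv with h | h
  · exact ⟨v, h, mem_insert_self _ _⟩
  · have h2 := (mem_sdiff.1 h).1
    rcases mem_union.1 h2 with h3 | h3
    · exact ⟨x, mem_insert_self _ _, mem_insert_of_mem h3⟩
    · obtain ⟨y, hy, hy2⟩ := mem_biUnion.1 h3
      exact ⟨y, mem_insert_of_mem hy, mem_insert_of_mem hy2⟩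

theorem card_R (h : Sys B C D E r) (x : V) :
    (insert x (B x) ∪ W B C x).card = 1 + r + (W B C x).card := by
  rw [card_union_of_disjoint, card_insert_of_notMem (h.lB x), h.cB, add_comm r 1]
  rw [W]
  exact disjoint_sdiff

theorem step (h : Sys B C D E r) {x y : V} (hy : y ∈ B x) : C y ⊆ B x ∪ W B C x := by
  intro v hv
  by_cases hvB : v ∈ B x
  · exact mem_union_left _ hvB
  · refine mem_union_right _ ?_
    rw [W, mem_sdiff]
    refine ⟨mem_union_right _ (mem_biUnion.2 ⟨y, hy, hv⟩), ?_⟩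
    rw [mem_insert]
    rintro (h1 | h1)
    · rw [h1] at hv
      have h2 := (h.U x y x x (mem_insert_of_mem hy) (mem_insert_of_mem hv) (mem_insert_self _ _)
        (mem_insert_self _ _)).1
      rw [h2] at hy
      exact h.lB x hy
    · exact hvB h1

theorem loc (h : Sys B C D E r) : Loc B C D (W B C) (W C D) r :=
  { cB := h.cB, cC := h.cC, cD := h.cD, CC := h.CC, DD := h.DD
    CD := fun u v hv hu => by
      have h2 := (h.U u u v u (mem_insert_self _ _) (mem_insert_of_mem hv) (mem_insert_of_mem hu)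
        (mem_insert_self _ _)).2.1
      rw [h2] at hv
      exact h.lC u hv
    s1 := fun x y hy => step h hy
    d1 := fun x => by
      rw [W]
      exact disjoint_sdiff.mono_left (subset_insert _ _)
    s2 := fun y z hz => step h.rot hz }

/-- the bound for the in-degrees -/
theorem indeg (h : Sys B C D E r) (y : V) :
    (inn B y).card + (1 + r + (W C D y).card) ≤ Fintype.card V := by
  rw [← card_R h.rot y, ← card_union_of_disjoint]
  · exact card_le_univ _
  · rw [disjoint_left]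
    intro x hx hx2
    rw [mem_inn] at hx
    obtain ⟨z, hz1, hz2⟩ := reach hx2
    have h2 := (h.U x y z x (mem_insert_of_mem hx) hz1 hz2 (mem_insert_self _ _)).1
    rw [h2] at hx
    exact h.lB x hx

/-- the counting of the pairs -/
theorem pairs (h : Sys B C D E r) :
    ∑ x, (1 + r + (W B C x).card) + ∑ x, (1 + r + (W D E x).card) ≤
      Fintype.card V * Fintype.card V + Fintype.card V := by
  have h1 : ∑ x, (1 + r + (W B C x).card) =
      ∑ x, ∑ v, if v ∈ insert x (B x) ∪ W B C x then 1 else 0 := by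
    refine sum_congr rfl fun x _ => ?_
    rw [← card_filter, filter_mem_eq_inter, univ_inter, card_R h]
  have h2 : ∑ x, (1 + r + (W D E x).card) =
      ∑ x, ∑ v, if x ∈ insert v (D v) ∪ W D E v then 1 else 0 := by
    rw [sum_comm]
    refine sum_congr rfl fun x _ => ?_
    rw [← card_filter, filter_mem_eq_inter, univ_inter, card_R h.rot.rot]
  rw [h1, h2, ← sum_add_distrib]
  have h3 : ∀ x ∈ (univ : Finset V), (∑ v, (if v ∈ insert x (B x) ∪ W B C x then 1 else 0)) +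
      (∑ v, if x ∈ insert v (D v) ∪ W D E v then 1 else 0) ≤ Fintype.card V + 1 := by
    intro x _
    rw [← sum_add_distrib]
    have h4 : ∀ v ∈ (univ : Finset V), ((if v ∈ insert x (B x) ∪ W B C x then 1 else 0) +
        if x ∈ insert v (D v) ∪ W D E v then 1 else 0) ≤ 1 + if v = x then 1 else 0 := by
      intro v _
      by_cases hv : v ∈ insert x (B x) ∪ W B C x
      · by_cases hx : x ∈ insert v (D v) ∪ W D E v
        · obtain ⟨y, hy1, hy2⟩ := reach hv
          obtain ⟨w, hw1, hw2⟩ := reach hx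
          have h5 := (h.U x y v w hy1 hy2 hw1 hw2).2.1
          rw [if_pos hv, if_pos hx, if_pos h5]
        · rw [if_pos hv, if_neg hx]
          omega
      · rw [if_neg hv]
        split_ifs <;> omega
    refine (sum_le_sum h4).trans ?_
    rw [sum_add_distrib, sum_const, card_univ, smul_eq_mul, mul_one, sum_ite_eq' univ x]
    simp
  refine (sum_le_sum h3).trans ?_
  rw [sum_const, card_univ, smul_eq_mul]
  exact le_of_eq (by ring)

/-- one rotation -/
theorem one (h : Sys B C D E r) (hr : 1 ≤ r) :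
    (Fintype.card V : ℝ) * (r : ℝ) ^ 2 / 4 ≤
      ((Fintype.card V : ℝ) - 3 / 2 * r) * ∑ x, (((W C D x).card : ℝ) - (r : ℝ) / 2) +
      3 / 2 * r * ∑ x, (((W B C x).card : ℝ) - (r : ℝ) / 2) := by
  have hl := loc h
  have h1 : ∑ x : V, (r : ℝ) * ((r : ℝ) / 4 - 3 / 2 * (((W B C x).card : ℝ) - (r : ℝ) / 2)) ≤
      ∑ x, ∑ y ∈ B x, (((W C D y).card : ℝ) - (r : ℝ) / 2) :=
    sum_le_sum fun x _ => perx hl hr x
  have h2 : ∑ x, ∑ y ∈ B x, (((W C D y).card : ℝ) - (r : ℝ) / 2) =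
      ∑ y, ((inn B y).card : ℝ) * (((W C D y).card : ℝ) - (r : ℝ) / 2) := by
    have e2 : ∀ x, ∑ y ∈ B x, (((W C D y).card : ℝ) - (r : ℝ) / 2) =
        ∑ y, if y ∈ B x then (((W C D y).card : ℝ) - (r : ℝ) / 2) else 0 := by
      intro x
      rw [← sum_filter, filter_mem_eq_inter, univ_inter]
    rw [sum_congr rfl fun x _ => e2 x, sum_comm]
    refine sum_congr rfl fun y _ => ?_
    rw [← sum_filter, sum_const, nsmul_eq_mul]
    rfl
  have h3 : ∑ y, ((inn B y).card : ℝ) * (((W C D y).card : ℝ) - (r : ℝ) / 2) ≤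
      ∑ y, ((Fintype.card V : ℝ) - 3 / 2 * r) * (((W C D y).card : ℝ) - (r : ℝ) / 2) := by
    refine sum_le_sum fun y _ => ?_
    have e1 : (r : ℝ) ≤ 2 * ((W C D y).card : ℝ) := by exact_mod_cast gnn hl hr y
    have e2 : ((inn B y).card : ℝ) + (1 + r + (W C D y).card) ≤ Fintype.card V := by
      exact_mod_cast indeg h y
    exact mul_le_mul_of_nonneg_right (by linarith) (by linarith)
  have h4 : ∑ x : V, (r : ℝ) * ((r : ℝ) / 4 - 3 / 2 * (((W B C x).card : ℝ) - (r : ℝ) / 2)) =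
      (Fintype.card V : ℝ) * (r : ℝ) ^ 2 / 4 -
        3 / 2 * r * ∑ x, (((W B C x).card : ℝ) - (r : ℝ) / 2) := by
    have e1 : ∀ x : V, (r : ℝ) * ((r : ℝ) / 4 - 3 / 2 * (((W B C x).card : ℝ) - (r : ℝ) / 2)) =
        (r : ℝ) ^ 2 / 4 - (3 / 2 * r) * (((W B C x).card : ℝ) - (r : ℝ) / 2) := fun x => by ring
    rw [sum_congr rfl fun x _ => e1 x, sum_sub_distrib, sum_const, card_univ, nsmul_eq_mul,
      ← mul_sum]
    ring
  rw [← mul_sum] at h3
  linarith

theorem pairs' (h : Sys B C D E r) :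
    ∑ x, (((W B C x).card : ℝ) - (r : ℝ) / 2) + ∑ x, (((W D E x).card : ℝ) - (r : ℝ) / 2) ≤
      (Fintype.card V : ℝ) * ((Fintype.card V : ℝ) - 1 - 3 * r) := by
  have h1 : ((∑ x, (1 + r + (W B C x).card) + ∑ x, (1 + r + (W D E x).card) : ℕ) : ℝ) ≤
      ((Fintype.card V * Fintype.card V + Fintype.card V : ℕ) : ℝ) := by
    exact_mod_cast pairs h
  push_cast at h1
  simp only [sum_add_distrib, sum_sub_distrib, sum_const, card_univ, nsmul_eq_mul] at h1 ⊢
  nlinarith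

/-- **the combinatorial theorem** -/
theorem comb [Nonempty V] (h : Sys B C D E r) (hr : 1 ≤ r) :
    (r : ℝ) ^ 2 < 2 * (Fintype.card V : ℝ) * ((Fintype.card V : ℝ) - 3 * r) := by
  have hN0 : (0 : ℝ) < Fintype.card V := by exact_mod_cast Fintype.card_pos
  have a1 := one h hr
  have a2 := one h.rot hr
  have a3 := one h.rot.rot hr
  have a4 := one h.rot.rot.rot hr
  have b1 := pairs' h
  have b2 := pairs' h.rot
  obtain ⟨N, hN⟩ : ∃ N : ℝ, N = (Fintype.card V : ℝ) := ⟨_, rfl⟩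
  obtain ⟨t1, ht1⟩ : ∃ t : ℝ, t = ∑ x, (((W B C x).card : ℝ) - (r : ℝ) / 2) := ⟨_, rfl⟩
  obtain ⟨t2, ht2⟩ : ∃ t : ℝ, t = ∑ x, (((W C D x).card : ℝ) - (r : ℝ) / 2) := ⟨_, rfl⟩
  obtain ⟨t3, ht3⟩ : ∃ t : ℝ, t = ∑ x, (((W D E x).card : ℝ) - (r : ℝ) / 2) := ⟨_, rfl⟩
  obtain ⟨t4, ht4⟩ : ∃ t : ℝ, t = ∑ x, (((W E B x).card : ℝ) - (r : ℝ) / 2) := ⟨_, rfl⟩
  rw [← ht1, ← ht2, ← hN] at a1
  rw [← ht2, ← ht3, ← hN] at a2
  rw [← ht3, ← ht4, ← hN] at a3
  rw [← ht4, ← ht1, ← hN] at a4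
  rw [← ht1, ← ht3, ← hN] at b1
  rw [← ht2, ← ht4, ← hN] at b2
  rw [← hN] at hN0 ⊢
  have h5 : N * (r : ℝ) ^ 2 ≤ N * (t1 + t2 + t3 + t4) := by nlinarith
  have h6 := le_of_mul_le_mul_left h5 hN0
  nlinarith

end four

/-- `r` chosen out-neighbours -/
theorem choose_set {n r : ℕ} {M : Matrix (Fin n) (Fin n) ℕ} (h01 : ∀ i j, M i j = 0 ∨ M i j = 1)
    (hdiag : ∀ i, M i i = 1) (hrow : ∀ i, r + 1 ≤ ∑ j, M i j) :
    ∃ D : Fin n → Finset (Fin n), (∀ v, (D v).card = r) ∧ ∀ v w, w ∈ D v → w ≠ v ∧ M v w = 1 := by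
  have h1 : ∀ v, ∃ T : Finset (Fin n), T ⊆ univ.filter (fun w => w ≠ v ∧ M v w = 1) ∧
      T.card = r := by
    intro v
    refine exists_subset_card_eq ?_
    have h2 : ∑ j, M v j = ∑ j ∈ univ.erase v, M v j + M v v :=
      (sum_erase_add _ _ (mem_univ v)).symm
    have h3 : ∑ j ∈ univ.erase v, M v j ≤
        (univ.filter (fun w => w ≠ v ∧ M v w = 1)).card := by
      rw [card_filter]
      have h4 : ∑ j ∈ univ.erase v, M v j ≤
          ∑ j ∈ univ.erase v, (if j ≠ v ∧ M v j = 1 then 1 else 0) := by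
        refine sum_le_sum fun j hj => ?_
        have hjw := ne_of_mem_erase hj
        rcases h01 v j with h | h <;> simp [h, hjw]
      exact h4.trans (sum_le_sum_of_subset (erase_subset _ _))
    have h5 := hrow v
    have h6 := hdiag v
    omega
  choose D hD1 hD2 using h1
  refine ⟨D, hD2, fun v w hw => ?_⟩
  have := hD1 v hw
  simpa using this

/-- **Four matrices of Seymour's trace question.** -/
theorem result (n r : ℕ) (hn : 1 ≤ n) (hr : 1 ≤ r) (hnr : 2 * n ^ 2 ≤ 6 * n * r + r ^ 2)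
    (A : Fin 4 → Matrix (Fin n) (Fin n) ℕ)
    (h01 : ∀ k i j, A k i j = 0 ∨ A k i j = 1)
    (hdiag : ∀ k i, A k i i = 1)
    (hanti : ∀ k i j, i ≠ j → A k i j = 1 → A k j i ≠ 1)
    (hrow : ∀ k i, r + 1 ≤ ∑ j, A k i j) :
    n < Matrix.trace (A 0 * A 1 * A 2 * A 3) := by
  classical
  by_contra hcon
  push Not at hcon
  have hexp : ∀ i, (A 0 * A 1 * A 2 * A 3) i i =
      ∑ p : Fin n × Fin n × Fin n, A 0 i p.2.2 * A 1 p.2.2 p.2.1 * A 2 p.2.1 p.1 * A 3 p.1 i := by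
    intro i
    simp only [Matrix.mul_apply, Finset.sum_mul, Fintype.sum_prod_type]
  have hd : ∀ i, 1 ≤ (A 0 * A 1 * A 2 * A 3) i i := by
    intro i
    rw [hexp]
    have := Finset.single_le_sum (f := fun p : Fin n × Fin n × Fin n =>
      A 0 i p.2.2 * A 1 p.2.2 p.2.1 * A 2 p.2.1 p.1 * A 3 p.1 i)
      (fun _ _ => Nat.zero_le _) (Finset.mem_univ (i, i, i))
    simpa [hdiag] using this
  have hd1 : ∀ i, (A 0 * A 1 * A 2 * A 3) i i ≤ 1 := by
    intro i
    by_contra h2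
    push Not at h2
    have : n < Matrix.trace (A 0 * A 1 * A 2 * A 3) := by
      rw [Matrix.trace]
      calc n = ∑ _i : Fin n, 1 := by simp
        _ < ∑ i, Matrix.diag (A 0 * A 1 * A 2 * A 3) i :=
          Finset.sum_lt_sum (fun i _ => hd i) ⟨i, Finset.mem_univ _, h2⟩
    omega
  -- only the trivial closed walk
  have huniq : ∀ i j k l, A 0 i j = 1 → A 1 j k = 1 → A 2 k l = 1 → A 3 l i = 1 →
      j = i ∧ k = i ∧ l = i := by
    intro i j k l ha hb hc hd'
    by_contra hne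
    have h1 := hd1 i
    rw [hexp] at h1
    have hne' : (l, k, j) ≠ (i, i, i) := by
      intro h
      rw [Prod.mk.injEq, Prod.mk.injEq] at h
      exact hne ⟨h.2.2, h.2.1, h.1⟩
    have h2 : ∑ p ∈ ({(l, k, j), (i, i, i)} : Finset (Fin n × Fin n × Fin n)),
        A 0 i p.2.2 * A 1 p.2.2 p.2.1 * A 2 p.2.1 p.1 * A 3 p.1 i
        ≤ ∑ p : Fin n × Fin n × Fin n,
        A 0 i p.2.2 * A 1 p.2.2 p.2.1 * A 2 p.2.1 p.1 * A 3 p.1 i :=
      Finset.sum_le_sum_of_subset (Finset.subset_univ _)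
    rw [Finset.sum_pair hne'] at h2
    simp only [ha, hb, hc, hd', hdiag] at h2
    omega
  obtain ⟨B, hB1, hB2⟩ := choose_set (h01 0) (hdiag 0) (hrow 0)
  obtain ⟨C, hC1, hC2⟩ := choose_set (h01 1) (hdiag 1) (hrow 1)
  obtain ⟨D, hD1, hD2⟩ := choose_set (h01 2) (hdiag 2) (hrow 2)
  obtain ⟨E, hE1, hE2⟩ := choose_set (h01 3) (hdiag 3) (hrow 3)
  have hins : ∀ (m : Fin 4) (X : Fin n → Finset (Fin n)), (∀ v w, w ∈ X v → w ≠ v ∧ A m v w = 1) →
      ∀ v w, w ∈ insert v (X v) → A m v w = 1 := by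
    intro m X hX v w hw
    rcases mem_insert.1 hw with h | h
    · rw [h]
      exact hdiag m v
    · exact (hX v w h).2
  have hsys : Sys B C D E r :=
    { cB := hB1
      cC := hC1
      cD := hD1
      cE := hE1
      lB := fun v hv => (hB2 v v hv).1 rfl
      lC := fun v hv => (hC2 v v hv).1 rfl
      lD := fun v hv => (hD2 v v hv).1 rfl
      lE := fun v hv => (hE2 v v hv).1 rfl
      BB := fun u v hv hu => hanti 0 u v (hB2 u v hv).1.symm (hB2 u v hv).2 (hB2 v u hu).2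
      CC := fun u v hv hu => hanti 1 u v (hC2 u v hv).1.symm (hC2 u v hv).2 (hC2 v u hu).2
      DD := fun u v hv hu => hanti 2 u v (hD2 u v hv).1.symm (hD2 u v hv).2 (hD2 v u hu).2
      EE := fun u v hv hu => hanti 3 u v (hE2 u v hv).1.symm (hE2 u v hv).2 (hE2 v u hu).2
      U := fun i j k l h1 h2 h3 h4 =>
        huniq i j k l (hins 0 B hB2 i j h1) (hins 1 C hC2 j k h2) (hins 2 D hD2 k l h3)
          (hins 3 E hE2 l i h4) }
  have : Nonempty (Fin n) := ⟨⟨0, hn⟩⟩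
  have h1 := comb hsys hr
  rw [Fintype.card_fin] at h1
  have h2 : 2 * (n : ℝ) ^ 2 ≤ 6 * n * r + (r : ℝ) ^ 2 := by exact_mod_cast hnr
  nlinarith

end Pool.Agent.Results.MP_323cd4_co.FourMatrices
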