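import Mathlib

/-!
# Seymour's trace question for three matrices with `r ≥ 0.3811 n`
-/

set_option autoImplicit false
set_option linter.unusedSectionVars false

namespace Pool.Agent.Results.MP_323cd4_co.ThreeMatrices

open Finset

section core

variable {V : Type} [Fintype V] [DecidableEq V]

/-- three digraphs with out-degrees `r`, without rainbow closed walks -/
structure Sys (A B C : V → Finset V) (r : ℕ) : Prop where
  cA : ∀ v, (A v).card = r
  cB : ∀ v, (B v).card = r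
  cC : ∀ v, (C v).card = r
  lA : ∀ v, v ∉ A v
  lB : ∀ v, v ∉ B v
  lC : ∀ v, v ∉ C v
  AA : ∀ u v, v ∈ A u → u ∉ A v
  CC : ∀ u v, v ∈ C u → u ∉ C v
  BA : ∀ u v, v ∈ B u → u ∉ A v
  BC : ∀ u v, v ∈ B u → u ∉ C v
  CA : ∀ u v, v ∈ C u → u ∉ A v
  rb : ∀ x y z, y ∈ B x → z ∈ C y → x ∉ A z

/-- in-neighbours -/
def inn (A : V → Finset V) (x : V) : Finset V := univ.filter (fun z => x ∈ A z)

theorem mem_inn {A : V → Finset V} {x z : V} : z ∈ inn A x ↔ x ∈ A z := by simp [inn]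

theorem sum_inn (A : V → Finset V) (r : ℕ) (h : ∀ v, (A v).card = r) :
    ∑ x, (inn A x).card = Fintype.card V * r := by
  have h1 : ∑ x, (inn A x).card = ∑ x, ∑ z, if x ∈ A z then 1 else 0 := by
    refine sum_congr rfl fun x _ => ?_
    rw [inn, card_filter]
  rw [h1, sum_comm]
  have h2 : ∀ z : V, (∑ x, if x ∈ A z then 1 else 0) = r := by
    intro z
    rw [← card_filter, filter_mem_eq_inter, univ_inter, h z]
  rw [sum_congr rfl fun z _ => h2 z, sum_const, card_univ, smul_eq_mul]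

/-- an oriented graph on `X` has at most `|X|²/2` arcs -/
theorem tour (D : V → Finset V) (h : ∀ u v, v ∈ D u → u ∉ D v) (X : Finset V) :
    2 * ∑ z ∈ X, (D z ∩ X).card ≤ X.card * X.card := by
  have h1 : ∀ z, (D z ∩ X).card = ∑ u ∈ X, if u ∈ D z then 1 else 0 := by
    intro z
    rw [← card_filter, filter_mem_eq_inter, inter_comm]
  have h2 : ∑ z ∈ X, (D z ∩ X).card = ∑ z ∈ X, ∑ u ∈ X, if u ∈ D z then 1 else 0 :=
    sum_congr rfl fun z _ => h1 z
  have h3 : ∑ z ∈ X, (D z ∩ X).card = ∑ z ∈ X, ∑ u ∈ X, if z ∈ D u then 1 else 0 := by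
    rw [h2, sum_comm]
  calc 2 * ∑ z ∈ X, (D z ∩ X).card
      = ∑ z ∈ X, (D z ∩ X).card + ∑ z ∈ X, (D z ∩ X).card := by ring
    _ = ∑ z ∈ X, ∑ u ∈ X, ((if u ∈ D z then 1 else 0) + if z ∈ D u then 1 else 0) := by
        nth_rewrite 1 [h2]
        rw [h3, ← sum_add_distrib]
        exact sum_congr rfl fun z _ => sum_add_distrib.symm
    _ ≤ ∑ z ∈ X, ∑ u ∈ X, 1 := by
        refine sum_le_sum fun z _ => sum_le_sum fun u _ => ?_
        by_cases hu : u ∈ D z
        · have := h z u hu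
          simp [hu, this]
        · simp only [hu, if_false, zero_add]
          split_ifs <;> simp
    _ = X.card * X.card := by simp

theorem cross (A C : V → Finset V) (h : ∀ u v, v ∈ C u → u ∉ A v) (P Q : Finset V) :
    ∑ z ∈ Q, (A z ∩ P).card ≤ ∑ u ∈ P, (Q \ C u).card := by
  have h1 : ∀ z, (A z ∩ P).card = ∑ u ∈ P, if u ∈ A z then 1 else 0 := by
    intro z
    rw [← card_filter, filter_mem_eq_inter, inter_comm]
  have h2 : ∀ u, (Q \ C u).card = ∑ z ∈ Q, if z ∉ C u then 1 else 0 := by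
    intro u
    rw [← card_filter, sdiff_eq_filter]
  rw [sum_congr rfl fun z _ => h1 z, sum_congr rfl fun u _ => h2 u, sum_comm]
  refine sum_le_sum fun u _ => sum_le_sum fun z _ => ?_
  by_cases hu : u ∈ A z
  · have : z ∉ C u := fun hz => h u z hz hu
    simp [hu, this]
  · simp [hu]

variable {A B C : V → Finset V} {r : ℕ}

/-- the remaining vertices -/
def W (A B : V → Finset V) (x : V) : Finset V := (insert x (inn A x ∪ B x))ᶜ

theorem card_W (h : Sys A B C r) (x : V) :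
    (W A B x).card + (1 + (inn A x).card + r) = Fintype.card V := by
  have h1 : (insert x (inn A x ∪ B x)).card = 1 + (inn A x).card + r := by
    rw [card_insert_of_notMem, card_union_of_disjoint, h.cB]
    · ring
    · rw [disjoint_left]
      intro z hz hzB
      rw [mem_inn] at hz
      exact h.BA x z hzB hz
    · rw [mem_union, mem_inn]
      rintro (h2 | h2)
      · exact h.lA x h2
      · exact h.lB x h2
  have h2 := card_compl_add_card (insert x (inn A x ∪ B x))
  rw [h1] at h2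
  exact h2

theorem split (h : Sys A B C r) {x y : V} (hy : y ∈ B x) :
    (C y ∩ W A B x).card + (C y ∩ B x).card = r := by
  have h1 : C y \ B x = C y ∩ W A B x := by
    ext z
    rw [mem_sdiff, mem_inter, W, mem_compl, mem_insert, mem_union, mem_inn]
    constructor
    · rintro ⟨h2, h3⟩
      refine ⟨h2, ?_⟩
      rintro (h4 | h4 | h4)
      · rw [h4] at h2
        exact h.BC x y hy h2
      · exact h.rb x y z hy h2 h4
      · exact h3 h4
    · rintro ⟨h2, h3⟩
      exact ⟨h2, fun h4 => h3 (Or.inr (Or.inr h4))⟩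
  rw [← h1, card_sdiff_add_card_inter, h.cC]

theorem deep (h : Sys A B C r) {y z : V} (hz : z ∈ C y) :
    r + (1 + (inn B y).card + r) ≤ (A z ∩ C y).card + Fintype.card V := by
  have h1 : (insert y (inn B y ∪ C y)).card = 1 + (inn B y).card + r := by
    rw [card_insert_of_notMem, card_union_of_disjoint, h.cC]
    · ring
    · rw [disjoint_left]
      intro w hw hwC
      rw [mem_inn] at hw
      exact h.BC w y hw hwC
    · rw [mem_union, mem_inn]
      rintro (h2 | h2)
      · exact h.lB y h2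
      · exact h.lC y h2
  have h2 : A z \ C y ⊆ (insert y (inn B y ∪ C y))ᶜ := by
    intro w hw
    rw [mem_sdiff] at hw
    rw [mem_compl, mem_insert, mem_union, mem_inn]
    rintro (h4 | h4 | h4)
    · rw [h4] at hw
      exact h.CA y z hz hw.1
    · exact h.rb w y z h4 hz hw.1
    · exact hw.2 h4
  have h3 := card_le_card h2
  have h4 := card_compl_add_card (insert y (inn B y ∪ C y))
  have h5 := card_sdiff_add_card_inter (A z) (C y)
  rw [h.cA] at h5
  omega

/-- the inequality for one arc `x → y` of `B` -/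
theorem arc (h : Sys A B C r) {x y : V} (hy : y ∈ B x) :
    2 * ((C y ∩ W A B x).card * (2 * r + 1 + (inn B y).card)) ≤
      2 * ((C y ∩ W A B x).card * Fintype.card V) +
        (C y ∩ W A B x).card * (C y ∩ W A B x).card +
        2 * ∑ u ∈ C y ∩ B x, (W A B x \ C u).card := by
  obtain ⟨Q, hQ⟩ : ∃ Q, Q = C y ∩ W A B x := ⟨_, rfl⟩
  obtain ⟨P, hP⟩ : ∃ P, P = C y ∩ B x := ⟨_, rfl⟩
  rw [← hQ, ← hP]
  have hdis : Disjoint Q P := by
    rw [disjoint_left, hQ, hP]
    intro z hz hz2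
    rw [mem_inter, W, mem_compl, mem_insert, mem_union] at hz
    rw [mem_inter] at hz2
    exact hz.2 (Or.inr (Or.inr hz2.2))
  have hun : C y = Q ∪ P := by
    symm
    apply eq_of_subset_of_card_le
    · rw [hQ, hP]
      exact union_subset inter_subset_left inter_subset_left
    · rw [card_union_of_disjoint hdis, hQ, hP, split h hy, h.cC]
  have h1 : ∑ z ∈ Q, (r + (1 + (inn B y).card + r)) ≤
      ∑ z ∈ Q, ((A z ∩ Q).card + (A z ∩ P).card + Fintype.card V) := by
    refine sum_le_sum fun z hz => ?_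
    have hz2 : z ∈ C y := by
      rw [hQ] at hz
      exact (mem_inter.1 hz).1
    have h2 := deep h hz2
    have h3 : (A z ∩ C y).card ≤ (A z ∩ Q).card + (A z ∩ P).card := by
      rw [hun, inter_union_distrib_left]
      exact card_union_le _ _
    omega
  rw [sum_const, smul_eq_mul, sum_add_distrib, sum_add_distrib, sum_const, smul_eq_mul] at h1
  have h2 := tour A h.AA Q
  have h3 := cross A C h.CA P Q
  have h4 : ∑ u ∈ P, (Q \ C u).card ≤ ∑ u ∈ P, (W A B x \ C u).card := by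
    refine sum_le_sum fun u _ => card_le_card (sdiff_subset_sdiff ?_ subset_rfl)
    rw [hQ]
    exact inter_subset_right
  have h5 : Q.card * (2 * r + 1 + (inn B y).card) = Q.card * (r + (1 + (inn B y).card + r)) := by
    ring
  rw [h5]
  omega

/-- exchange of the sums -/
theorem exch (h : Sys A B C r) (x : V) (f : V → ℕ) :
    ∑ y ∈ B x, ∑ u ∈ C y ∩ B x, f u ≤ ∑ u ∈ B x, f u * (C u ∩ W A B x).card := by
  have h1 : ∀ y, ∑ u ∈ C y ∩ B x, f u = ∑ u ∈ B x, if u ∈ C y then f u else 0 := by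
    intro y
    rw [← sum_filter, filter_mem_eq_inter, inter_comm]
  rw [sum_congr rfl fun y _ => h1 y, sum_comm]
  refine sum_le_sum fun u hu => ?_
  rw [← sum_filter, sum_const, smul_eq_mul, mul_comm]
  refine Nat.mul_le_mul_left _ ?_
  have h2 : Disjoint ((B x).filter (fun y => u ∈ C y)) (C u ∩ B x) := by
    rw [disjoint_left]
    intro y hy hy2
    rw [mem_filter] at hy
    rw [mem_inter] at hy2
    exact h.CC y u hy.2 hy2.1
  have h3 : ((B x).filter (fun y => u ∈ C y) ∪ (C u ∩ B x)).card ≤ (B x).card :=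
    card_le_card (union_subset (filter_subset _ _) inter_subset_right)
  rw [card_union_of_disjoint h2, h.cB] at h3
  have h4 := split h hu
  omega

/-- the sum of the numbers `q` -/
theorem sumq (h : Sys A B C r) (x : V) :
    r * r ≤ 2 * ∑ y ∈ B x, (C y ∩ W A B x).card := by
  have h1 : ∑ y ∈ B x, ((C y ∩ W A B x).card + (C y ∩ B x).card) = r * r := by
    rw [sum_congr rfl fun y hy => split h hy, sum_const, h.cB, smul_eq_mul]
  rw [sum_add_distrib] at h1
  have h2 := tour C h.CC (B x)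
  rw [h.cB] at h2
  omega

/-- the in-degrees are at most `|V| - 3 r / 2 - 1` -/
theorem gnn (h : Sys A B C r) (hr : 1 ≤ r) (y : V) :
    3 * r + 2 + 2 * (inn B y).card ≤ 2 * Fintype.card V := by
  have h1 : ∑ z ∈ C y, (r + (1 + (inn B y).card + r)) ≤
      ∑ z ∈ C y, ((A z ∩ C y).card + Fintype.card V) := sum_le_sum fun z hz => deep h hz
  rw [sum_const, smul_eq_mul, sum_add_distrib, sum_const, smul_eq_mul, h.cC] at h1
  have h2 := tour A h.AA (C y)
  rw [h.cC] at h2
  have h3 : r * (2 * (r + (1 + (inn B y).card + r))) ≤ r * (r + 2 * Fintype.card V) := by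
    nlinarith
  have h4 := Nat.le_of_mul_le_mul_left h3 (by omega)
  omega

/-- the cubic inequality -/
theorem cubic {R D b q : ℝ} (hR : 0 < R) (hD : 0 ≤ D) (hDR : 250 * D ≤ 31 * R) (hb : 0 < b)
    (hbR : b ≤ R + D) :
    R * (R / 2 + 2 * D) - q ^ 2 + q * (3 * R - 2 * b) ≤ R ^ 3 * (1 / b) := by
  have h1 : R * (R / 2 + 2 * D) - q ^ 2 + q * (3 * R - 2 * b) ≤
      R * (R / 2 + 2 * D) + (3 * R - 2 * b) ^ 2 / 4 := by
    nlinarith [sq_nonneg (q - (3 * R - 2 * b) / 2)]
  refine h1.trans ?_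
  rw [mul_one_div, le_div_iff₀ hb]
  have h2 : 0 ≤ (R - b) ^ 3 + (R / 4 - 2 * D) * R * b := by
    rcases le_total b R with h3 | h3
    · have e1 : 0 ≤ (R - b) ^ 3 := pow_nonneg (by linarith) 3
      have e2 : 0 ≤ (R / 4 - 2 * D) * R * b :=
        mul_nonneg (mul_nonneg (by linarith) hR.le) hb.le
      linarith
    · have e1 : (b - R) ^ 3 ≤ D ^ 3 := pow_le_pow_left₀ (by linarith) (by linarith) 3
      have e2 : D ^ 3 ≤ (31 / 250 * R) ^ 3 := pow_le_pow_left₀ hD (by linarith) 3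
      have e3 : (1 / 500 * R) * R * R ≤ (R / 4 - 2 * D) * R * b :=
        mul_le_mul (mul_le_mul_of_nonneg_right (by linarith) hR.le) h3 hR.le
          (mul_nonneg (by linarith) hR.le)
      have e4 : (31 / 250 * R) ^ 3 ≤ (1 / 500 * R) * R * R := by
        have : 0 ≤ R ^ 3 := by positivity
        nlinarith
      have e5 : (R - b) ^ 3 = - (b - R) ^ 3 := by ring
      rw [e5]
      linarith
  nlinarith

/-- the inequality for one vertex -/
theorem perx (h : Sys A B C r) (hr : 1 ≤ r)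
    (hD : 0 ≤ (Fintype.card V : ℝ) - 5 / 2 * r)
    (hDR : 250 * ((Fintype.card V : ℝ) - 5 / 2 * r) ≤ 31 * r) (x : V) :
    ((inn A x).card : ℝ) < (r : ℝ) * ∑ y ∈ B x, (1 : ℝ) / (inn B y).card := by
  obtain ⟨N, hN⟩ : ∃ N : ℝ, N = (Fintype.card V : ℝ) := ⟨_, rfl⟩
  obtain ⟨a, ha⟩ : ∃ a : ℝ, a = ((inn A x).card : ℝ) := ⟨_, rfl⟩
  obtain ⟨R, hR⟩ : ∃ R : ℝ, R = (r : ℝ) := ⟨_, rfl⟩
  obtain ⟨w, hw⟩ : ∃ w : ℝ, w = ((W A B x).card : ℝ) := ⟨_, rfl⟩
  obtain ⟨q, hq⟩ : ∃ q : V → ℝ, q = fun y => ((C y ∩ W A B x).card : ℝ) := ⟨_, rfl⟩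
  obtain ⟨b, hb⟩ : ∃ b : V → ℝ, b = fun y => ((inn B y).card : ℝ) := ⟨_, rfl⟩
  have hR1 : 1 ≤ R := by rw [hR]; exact_mod_cast hr
  have hR0 : 0 < R := by linarith
  have ew : w = N - 1 - a - R := by
    have := card_W h x
    have h2 : ((W A B x).card : ℝ) + (1 + (inn A x).card + r) = Fintype.card V := by
      exact_mod_cast this
    rw [hw, hN, ha, hR]
    linarith
  have hg : ∀ y, b y ≤ N - 3 / 2 * R := by
    intro y
    have h2 : (3 * (r : ℝ) + 2 + 2 * (inn B y).card) ≤ 2 * Fintype.card V := by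
      exact_mod_cast gnn h hr y
    rw [hN, hR, hb]
    simp only
    linarith
  have hb0 : ∀ y ∈ B x, 0 < b y := by
    intro y hy
    rw [hb]
    simp only
    exact_mod_cast card_pos.2 ⟨x, mem_inn.2 hy⟩
  obtain ⟨S, hS⟩ : ∃ S : ℝ, S = ∑ y ∈ B x, q y := ⟨_, rfl⟩
  obtain ⟨S2, hS2⟩ : ∃ S2 : ℝ, S2 = ∑ y ∈ B x, q y ^ 2 := ⟨_, rfl⟩
  obtain ⟨M, hM⟩ : ∃ M : ℝ, M = ∑ y ∈ B x, q y * b y := ⟨_, rfl⟩
  -- the sum of the inequalities for the arcs
  have h1 : ∑ y ∈ B x, 2 * (q y * (2 * R + 1 + b y)) ≤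
      ∑ y ∈ B x, (2 * (q y * N) + q y ^ 2) + 2 * ∑ u ∈ B x, (w - q u) * q u := by
    have e1 : ∑ y ∈ B x, 2 * (q y * (2 * R + 1 + b y)) ≤
        ∑ y ∈ B x, ((2 * (q y * N) + q y ^ 2) +
          2 * ((∑ u ∈ C y ∩ B x, (W A B x \ C u).card : ℕ) : ℝ)) := by
      refine sum_le_sum fun y hy => ?_
      have e2 := arc h hy
      have e3 : (2 * (((C y ∩ W A B x).card : ℝ) * (2 * r + 1 + (inn B y).card)) : ℝ) ≤
        2 * (((C y ∩ W A B x).card : ℝ) * Fintype.card V) +
          (C y ∩ W A B x).card * (C y ∩ W A B x).card +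
          2 * ((∑ u ∈ C y ∩ B x, (W A B x \ C u).card : ℕ) : ℝ) := by exact_mod_cast e2
      rw [hq, hR, hb, hN]
      simp only
      rw [pow_two]
      exact e3
    have e4 : ((∑ y ∈ B x, ∑ u ∈ C y ∩ B x, (W A B x \ C u).card : ℕ) : ℝ) ≤
        ∑ u ∈ B x, (w - q u) * q u := by
      have e5 : ((∑ y ∈ B x, ∑ u ∈ C y ∩ B x, (W A B x \ C u).card : ℕ) : ℝ) ≤
          ((∑ u ∈ B x, (W A B x \ C u).card * (C u ∩ W A B x).card : ℕ) : ℝ) := by
        exact_mod_cast exch h x _
      refine e5.trans (le_of_eq ?_)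
      rw [Nat.cast_sum]
      refine sum_congr rfl fun u _ => ?_
      have e6 := card_sdiff_add_card_inter (W A B x) (C u)
      rw [inter_comm] at e6
      have e7 : ((W A B x \ C u).card : ℝ) = w - q u := by
        rw [hw, hq]
        simp only
        rw [← e6]
        push_cast
        ring
      rw [Nat.cast_mul, e7, hq]
    have e8 : ∑ y ∈ B x, ((2 * (q y * N) + q y ^ 2) +
          2 * ((∑ u ∈ C y ∩ B x, (W A B x \ C u).card : ℕ) : ℝ)) =
        ∑ y ∈ B x, (2 * (q y * N) + q y ^ 2) +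
          2 * ((∑ y ∈ B x, ∑ u ∈ C y ∩ B x, (W A B x \ C u).card : ℕ) : ℝ) := by
      rw [sum_add_distrib, Nat.cast_sum, mul_sum]
    rw [e8] at e1
    linarith
  have h2 : S2 + 2 * M + 4 * S ≤ 2 * (2 * (N - 3 / 2 * R) - a) * S := by
    have e1 : ∑ y ∈ B x, 2 * (q y * (2 * R + 1 + b y)) =
        2 * (2 * R + 1) * S + 2 * M := by
      rw [hS, hM, mul_sum, mul_sum, ← sum_add_distrib]
      exact sum_congr rfl fun y _ => by ring
    have e2 : ∑ y ∈ B x, (2 * (q y * N) + q y ^ 2) = 2 * N * S + S2 := by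
      rw [hS, hS2, mul_sum, ← sum_add_distrib]
      exact sum_congr rfl fun y _ => by ring
    have e3 : ∑ u ∈ B x, (w - q u) * q u = w * S - S2 := by
      rw [hS, hS2, mul_sum, ← sum_sub_distrib]
      exact sum_congr rfl fun y _ => by ring
    rw [e1, e2, e3, ew] at h1
    nlinarith
  have h5 : R ^ 2 ≤ 2 * S := by
    have e1 := sumq h x
    have e2 : ((r : ℝ) * r) ≤ 2 * ((∑ y ∈ B x, (C y ∩ W A B x).card : ℕ) : ℝ) := by
      exact_mod_cast e1
    rw [hR, hS, hq]
    push_cast at e2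
    simp only
    rw [pow_two]
    exact e2
  rw [← hN, ← hR] at hD hDR
  obtain ⟨D, hD'⟩ : ∃ D : ℝ, D = N - 5 / 2 * R := ⟨_, rfl⟩
  rw [← hD'] at hD hDR
  have hND : N = D + 5 / 2 * R := by linarith
  obtain ⟨T, hT⟩ : ∃ T : ℝ, T = ∑ y ∈ B x, (1 : ℝ) / b y := ⟨_, rfl⟩
  have hcB : ((B x).card : ℝ) = R := by rw [h.cB, hR]
  -- the first bound
  have h6 : R * (R * (R / 2 + 2 * D)) - S2 + 3 * R * S - 2 * M ≤ R ^ 3 * T := by
    have e1 : ∑ y ∈ B x, (R * (R / 2 + 2 * D) - q y ^ 2 + q y * (3 * R - 2 * b y)) ≤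
        ∑ y ∈ B x, R ^ 3 * (1 / b y) := by
      refine sum_le_sum fun y hy => cubic hR0 hD hDR (hb0 y hy) ?_
      have := hg y
      linarith
    have e2 : ∑ y ∈ B x, (R * (R / 2 + 2 * D) - q y ^ 2 + q y * (3 * R - 2 * b y)) =
        R * (R * (R / 2 + 2 * D)) - S2 + 3 * R * S - 2 * M := by
      have e3 : ∀ y, R * (R / 2 + 2 * D) - q y ^ 2 + q y * (3 * R - 2 * b y) =
          R * (R / 2 + 2 * D) - q y ^ 2 + 3 * R * q y - 2 * (q y * b y) := fun y => by ring
      rw [sum_congr rfl fun y _ => e3 y, sum_sub_distrib, sum_add_distrib, sum_sub_distrib,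
        sum_const, nsmul_eq_mul, hcB, ← mul_sum, ← mul_sum, hS, hS2, hM]
    rw [e2, ← mul_sum, ← hT] at e1
    exact e1
  -- the second bound
  have h7 : 8 * R ≤ 9 * (R * T) := by
    have e1 : ∑ y ∈ B x, (8 / (9 * R) : ℝ) ≤ ∑ y ∈ B x, (1 : ℝ) / b y := by
      refine sum_le_sum fun y hy => ?_
      rw [div_le_div_iff₀ (by positivity) (hb0 y hy)]
      have := hg y
      linarith
    rw [sum_const, nsmul_eq_mul, hcB, ← hT] at e1
    have e2 : R * (8 / (9 * R)) = 8 / 9 := by field_simp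
    rw [e2] at e1
    nlinarith
  have eT : ∑ y ∈ B x, (1 : ℝ) / ((inn B y).card : ℝ) = T := by rw [hT, hb]
  rw [← hR, ← ha, eT]
  rw [hND] at h2
  by_cases hc : 0 ≤ 2 * a - R - 4 * D + 4
  · have e1 : (2 * a - R - 4 * D + 4) * (R ^ 2) ≤ (2 * a - R - 4 * D + 4) * (2 * S) :=
      mul_le_mul_of_nonneg_left h5 hc
    have e2 : R ^ 2 * (a + 2) ≤ R ^ 2 * (R * T) := by nlinarith
    have e3 := le_of_mul_le_mul_left e2 (by positivity)
    linarith
  · push Not at hc
    linarith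

/-- **the combinatorial theorem** -/
theorem comb [Nonempty V] (h : Sys A B C r) (hr : 1 ≤ r) :
    328 * (r : ℝ) < 125 * (Fintype.card V : ℝ) := by
  by_contra hcon
  push Not at hcon
  have hN0 : (0 : ℝ) < Fintype.card V := by exact_mod_cast Fintype.card_pos
  have sB : ((∑ x, (inn B x).card : ℕ) : ℝ) = Fintype.card V * r := by
    exact_mod_cast sum_inn B r h.cB
  have hD : 0 ≤ (Fintype.card V : ℝ) - 5 / 2 * r := by
    have e1 : ((∑ x, (inn B x).card : ℕ) : ℝ) ≤
        ∑ _x : V, ((Fintype.card V : ℝ) - 3 / 2 * r) := by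
      rw [Nat.cast_sum]
      refine sum_le_sum fun y _ => ?_
      have h2 : (3 * (r : ℝ) + 2 + 2 * (inn B y).card) ≤ 2 * Fintype.card V := by
        exact_mod_cast gnn h hr y
      linarith
    rw [sum_const, card_univ, nsmul_eq_mul, sB] at e1
    have e2 := le_of_mul_le_mul_left e1 hN0
    linarith
  have hlt : ∑ x, ((inn A x).card : ℝ) < ∑ x, (r : ℝ) * ∑ y ∈ B x, (1 : ℝ) / (inn B y).card :=
    sum_lt_sum_of_nonempty univ_nonempty fun x _ => perx h hr hD (by linarith) x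
  have e1 : ∑ x, ((inn A x).card : ℝ) = Fintype.card V * r := by
    rw [← Nat.cast_sum]
    exact_mod_cast sum_inn A r h.cA
  have e2 : ∑ x, ∑ y ∈ B x, (1 : ℝ) / (inn B y).card ≤ Fintype.card V := by
    have e3 : ∀ x, ∑ y ∈ B x, (1 : ℝ) / (inn B y).card =
        ∑ y, if y ∈ B x then (1 : ℝ) / (inn B y).card else 0 := by
      intro x
      rw [← sum_filter, filter_mem_eq_inter, univ_inter]
    rw [sum_congr rfl fun x _ => e3 x, sum_comm]
    have e4 : ∀ y : V, (∑ x, if y ∈ B x then (1 : ℝ) / (inn B y).card else 0) ≤ 1 := by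
      intro y
      rw [← sum_filter, sum_const, nsmul_eq_mul]
      show ((inn B y).card : ℝ) * (1 / (inn B y).card) ≤ 1
      rw [mul_one_div]
      exact div_self_le_one _
    refine (sum_le_sum fun y _ => e4 y).trans ?_
    rw [sum_const, card_univ, nsmul_eq_mul, mul_one]
  rw [e1, ← mul_sum] at hlt
  have h3 : (r : ℝ) * ∑ x, ∑ y ∈ B x, (1 : ℝ) / (inn B y).card ≤ r * Fintype.card V :=
    mul_le_mul_of_nonneg_left e2 (Nat.cast_nonneg r)
  linarith

end core

/-- `r` chosen out-neighbours -/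
theorem choose_set {n r : ℕ} {M : Matrix (Fin n) (Fin n) ℕ} (h01 : ∀ i j, M i j = 0 ∨ M i j = 1)
    (hdiag : ∀ i, M i i = 1) (hrow : ∀ i, r + 1 ≤ ∑ j, M i j) :
    ∃ D : Fin n → Finset (Fin n), (∀ v, (D v).card = r) ∧ ∀ v w, w ∈ D v → w ≠ v ∧ M v w = 1 := by
  have h1 : ∀ v, ∃ T : Finset (Fin n), T ⊆ univ.filter (fun w => w ≠ v ∧ M v w = 1) ∧
      T.card = r := by
    intro v
    refine exists_subset_card_eq ?_
    have h2 : ∑ j, M v j = ∑ j ∈ univ.erase v, M v j + M v v :=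
      (sum_erase_add _ _ (mem_univ v)).symm
    have h3 : ∑ j ∈ univ.erase v, M v j ≤
        (univ.filter (fun w => w ≠ v ∧ M v w = 1)).card := by
      rw [card_filter]
      have h4 : ∑ j ∈ univ.erase v, M v j ≤
          ∑ j ∈ univ.erase v, (if j ≠ v ∧ M v j = 1 then 1 else 0) := by
        refine sum_le_sum fun j hj => ?_
        have hjw := ne_of_mem_erase hj
        rcases h01 v j with h | h <;> simp [h, hjw]
      exact h4.trans (sum_le_sum_of_subset (erase_subset _ _))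
    have h5 := hrow v
    have h6 := hdiag v
    omega
  choose D hD1 hD2 using h1
  refine ⟨D, hD2, fun v w hw => ?_⟩
  have := hD1 v hw
  simpa using this

/-- **Three matrices of Seymour's trace question.**  If `r ≥ 125 n / 328 = 0.38109… n` then the trace of
the product of three admissible `n × n` matrices with all row sums at least `r + 1` is greater than `n`. -/
theorem result (n r : ℕ) (hn : 1 ≤ n) (hnr : 125 * n ≤ 328 * r)
    (A : Fin 3 → Matrix (Fin n) (Fin n) ℕ)
    (h01 : ∀ k i j, A k i j = 0 ∨ A k i j = 1)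
    (hdiag : ∀ k i, A k i i = 1)
    (hanti : ∀ k i j, i ≠ j → A k i j = 1 → A k j i ≠ 1)
    (hrow : ∀ k i, r + 1 ≤ ∑ j, A k i j) :
    n < Matrix.trace (A 0 * A 1 * A 2) := by
  classical
  by_contra hcon
  push Not at hcon
  have hterm : ∀ i j l, A 0 i j * A 1 j l * A 2 l i ≤ (A 0 * A 1 * A 2) i i := by
    intro i j l
    rw [Matrix.mul_apply]
    refine le_trans ?_ (Finset.single_le_sum (f := fun l => (A 0 * A 1) i l * A 2 l i)
      (fun _ _ => Nat.zero_le _) (Finset.mem_univ l))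
    refine Nat.mul_le_mul_right _ ?_
    rw [Matrix.mul_apply]
    exact Finset.single_le_sum (f := fun j => A 0 i j * A 1 j l) (fun _ _ => Nat.zero_le _)
          (Finset.mem_univ j)
  have hd : ∀ i, 1 ≤ (A 0 * A 1 * A 2) i i := by
    intro i
    have := hterm i i i
    simpa [hdiag] using this
  have hd1 : ∀ i, (A 0 * A 1 * A 2) i i ≤ 1 := by
    intro i
    by_contra h2
    push Not at h2
    have : n < Matrix.trace (A 0 * A 1 * A 2) := by
      rw [Matrix.trace]
      calc n = ∑ _i : Fin n, 1 := by simp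
        _ < ∑ i, Matrix.diag (A 0 * A 1 * A 2) i :=
          Finset.sum_lt_sum (fun i _ => hd i) ⟨i, Finset.mem_univ _, h2⟩
    omega
  -- only the trivial closed walk
  have huniq : ∀ i j l, A 0 i j = 1 → A 1 j l = 1 → A 2 l i = 1 → j = i ∧ l = i := by
    intro i j l ha hb hc
    by_contra hne
    have h1 := hd1 i
    rw [Matrix.mul_apply] at h1
    have e : ∀ l, (A 0 * A 1) i l * A 2 l i = ∑ j, A 0 i j * A 1 j l * A 2 l i := by
      intro l
      rw [Matrix.mul_apply, Finset.sum_mul]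
    simp only [e] at h1
    rw [← Finset.sum_product' (f := fun l j => A 0 i j * A 1 j l * A 2 l i)] at h1
    have hne' : (l, j) ≠ (i, i) := by
      intro h
      exact hne ⟨(Prod.mk.inj h).2, (Prod.mk.inj h).1⟩
    have h2 : ∑ p ∈ ({(l, j), (i, i)} : Finset (Fin n × Fin n)),
        A 0 i p.2 * A 1 p.2 p.1 * A 2 p.1 i
        ≤ ∑ p ∈ (Finset.univ ×ˢ Finset.univ : Finset (Fin n × Fin n)),
        A 0 i p.2 * A 1 p.2 p.1 * A 2 p.1 i := by
      refine Finset.sum_le_sum_of_subset ?_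
      intro p _
      simp
    rw [Finset.sum_pair hne'] at h2
    simp only [ha, hb, hc, hdiag] at h2
    omega
  obtain ⟨B, hB1, hB2⟩ := choose_set (h01 0) (hdiag 0) (hrow 0)
  obtain ⟨C, hC1, hC2⟩ := choose_set (h01 1) (hdiag 1) (hrow 1)
  obtain ⟨D, hD1, hD2⟩ := choose_set (h01 2) (hdiag 2) (hrow 2)
  have hsys : Sys D B C r :=
    { cA := hD1
      cB := hB1
      cC := hC1
      lA := fun v hv => (hD2 v v hv).1 rfl
      lB := fun v hv => (hB2 v v hv).1 rfl
      lC := fun v hv => (hC2 v v hv).1 rfl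
      AA := fun u v hv hu => hanti 2 u v (hD2 u v hv).1.symm (hD2 u v hv).2 (hD2 v u hu).2
      CC := fun u v hv hu => hanti 1 u v (hC2 u v hv).1.symm (hC2 u v hv).2 (hC2 v u hu).2
      BA := fun u v hv hu =>
        (hB2 u v hv).1 (huniq u v v (hB2 u v hv).2 (hdiag 1 v) (hD2 v u hu).2).1
      BC := fun u v hv hu =>
        (hB2 u v hv).1 (huniq u v u (hB2 u v hv).2 (hC2 v u hu).2 (hdiag 2 u)).1
      CA := fun u v hv hu =>
        (hC2 u v hv).1 (huniq u u v (hdiag 0 u) (hC2 u v hv).2 (hD2 v u hu).2).2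
      rb := fun x y z hy hz hx =>
        (hB2 x y hy).1 (huniq x y z (hB2 x y hy).2 (hC2 y z hz).2 (hD2 z x hx).2).1 }
  have hr : 1 ≤ r := by omega
  have : Nonempty (Fin n) := ⟨⟨0, hn⟩⟩
  have h1 := comb hsys hr
  rw [Fintype.card_fin] at h1
  have h2 : 328 * r < 125 * n := by exact_mod_cast h1
  omega

end Pool.Agent.Results.MP_323cd4_co.ThreeMatrices
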